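import Mathlib

/-!
Edge colourings of multigraphs as families of involutions, and Vizing's fan inequality.
-/

set_option autoImplicit false

open Finset

namespace Pool.Agent.P.MP_d14d18_co

variable {V κ : Type} [Fintype V] [DecidableEq V] [Fintype κ] [DecidableEq κ]

/-- every colour class is an involution (a matching; fixed points miss the colour) -/
def Inv (σ : κ → V → V) : Prop := ∀ i v, σ i (σ i v) = v

/-- number of colours joining `u` to `v` (for `u = v`: number of colours missing at `u`) -/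
def mult (σ : κ → V → V) (u v : V) : ℕ := (univ.filter fun i => σ i u = v).card

def dl (a b u v : V) : ℕ := if (u = a ∧ v = b) ∨ (u = b ∧ v = a) then 1 else 0

def lk (g : V → V) (x y : V) : V → V := fun v =>
  if v = x then y else if v = y then x else if v = g x then v else g v

omit [Fintype V] in
theorem lk_inv {g : V → V} (hg : ∀ v, g (g v) = v) {x y : V} (hxy : x ≠ y) (hy : g y = y)
    (v : V) : lk g x y (lk g x y v) = v := by
  unfold lk
  have h1 := hg v
  have h2 := hg x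
  split_ifs <;> grind

omit [Fintype V] in
theorem mult_update (σ : κ → V → V) (β : κ) (g : V → V) (u v : V) :
    mult (Function.update σ β g) u v + (if σ β u = v then 1 else 0) =
      mult σ u v + (if g u = v then 1 else 0) := by
  unfold mult
  rw [card_filter, card_filter, ← Finset.add_sum_erase _ _ (mem_univ β),
    ← Finset.add_sum_erase _ _ (mem_univ β)]
  have : ∑ i ∈ univ.erase β, (if Function.update σ β g i u = v then 1 else 0) =
      ∑ i ∈ univ.erase β, (if σ i u = v then 1 else 0) := by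
    refine sum_congr rfl fun i hi => ?_
    rw [Function.update_of_ne (ne_of_mem_erase hi)]
  rw [this, Function.update_self]
  omega

omit [Fintype V] [Fintype κ] in
theorem inv_link {σ : κ → V → V} (hσ : Inv σ) {β : κ} {x y : V} (hxy : x ≠ y)
    (hy : σ β y = y) : Inv (Function.update σ β (lk (σ β) x y)) := by
  intro i v
  by_cases h : i = β
  · subst h
    rw [Function.update_self]
    exact lk_inv (hσ i) hxy hy v
  · rw [Function.update_of_ne h]
    exact hσ i v

omit [Fintype V] in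
theorem mult_link {σ : κ → V → V} (hσ : Inv σ) {β : κ} {x y : V} (hxy : x ≠ y)
    (hy : σ β y = y) {u v : V} (huv : u ≠ v) :
    mult (Function.update σ β (lk (σ β) x y)) u v + dl x (σ β x) u v =
      mult σ u v + dl x y u v := by
  have h := mult_update σ β (lk (σ β) x y) u v
  have h1 := hσ β u
  have h2 := hσ β x
  have : (if lk (σ β) x y u = v then 1 else 0) + dl x (σ β x) u v =
      (if σ β u = v then 1 else 0) + dl x y u v := by
    unfold lk dl
    split_ifs <;> grind
  omega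

theorem sum_mult (σ : κ → V → V) (u : V) : ∑ v, mult σ u v = Fintype.card κ := by
  unfold mult
  rw [← card_univ, card_eq_sum_card_fiberwise (f := fun i => σ i u) (t := univ)
    (fun _ _ => mem_univ _)]

/-- Kempe chains: the orbit of a point fixed by `a` contains at most one point fixed by `b`. -/
theorem kempe {W : Type} (a b : W → W) (ha : ∀ v, a (a v) = v) (hb : ∀ v, b (b v) = v)
    (x : W) (hx : a x = x) :
    ∃ K : Set W, x ∈ K ∧ (∀ v, v ∈ K → a v ∈ K) ∧ (∀ v, v ∈ K → b v ∈ K) ∧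
      ∀ z z', z ∈ K → z' ∈ K → b z = z → b z' = z' → z = z' := by
  let A : Equiv.Perm W := Function.Involutive.toPerm a ha
  let B : Equiv.Perm W := Function.Involutive.toPerm b hb
  have hA : A * A = 1 := by ext v; exact ha v
  have hB : B * B = 1 := by ext v; exact hb v
  set ρ := A * B with hρ
  have hAi : A⁻¹ = A := inv_eq_of_mul_eq_one_right hA
  have hBi : B⁻¹ = B := inv_eq_of_mul_eq_one_right hB
  have h1 : A * ρ * A⁻¹ = ρ⁻¹ := by
    rw [hρ, mul_inv_rev, hAi, hBi, ← mul_assoc, hA, one_mul]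
  have h2 : ∀ n : ℤ, A * ρ ^ n = ρ ^ (-n) * A := by
    intro n
    have : A * ρ ^ n * A⁻¹ = ρ ^ (-n) := by
      rw [← conj_zpow, h1, inv_zpow']
    rw [← this, inv_mul_cancel_right]
  have h3 : ∀ n : ℤ, a ((ρ ^ n) x) = (ρ ^ (-n)) x := by
    intro n
    have := congrArg (fun f : Equiv.Perm W => f x) (h2 n)
    simp only [Equiv.Perm.mul_apply] at this
    have e : A x = x := hx
    rw [e] at this
    exact this
  have h4 : ∀ n : ℤ, b ((ρ ^ n) x) = (ρ ^ (-(n + 1))) x := by
    intro n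
    rw [← h3, add_comm, zpow_add, zpow_one, Equiv.Perm.mul_apply]
    exact (ha _).symm
  have h5 : ∀ n : ℤ, b ((ρ ^ n) x) = (ρ ^ n) x → (MulAction.period ρ x : ℤ) ∣ 2 * n + 1 := by
    intro n h
    rw [← MulAction.zpow_smul_eq_iff_period_dvd]
    rw [h4] at h
    have := congrArg (fun v => (ρ ^ (n + 1)) v) h
    simp only [← Equiv.Perm.mul_apply, ← zpow_add] at this
    rw [add_neg_cancel, zpow_zero] at this
    rw [show 2 * n + 1 = n + 1 + n by ring]
    exact this.symm
  refine ⟨{v | ∃ n : ℤ, (ρ ^ n) x = v}, ⟨0, rfl⟩, ?_, ?_, ?_⟩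
  · rintro _ ⟨n, rfl⟩; exact ⟨_, (h3 n).symm⟩
  · rintro _ ⟨n, rfl⟩; exact ⟨_, (h4 n).symm⟩
  · rintro _ _ ⟨n, rfl⟩ ⟨n', rfl⟩ e e'
    obtain ⟨c, hc⟩ := h5 n e
    obtain ⟨c', hc'⟩ := h5 n' e'
    have hd : (MulAction.period ρ x : ℤ) ∣ n - n' := by
      refine ⟨c * (n - n') - n * (c - c'), ?_⟩
      have : (MulAction.period ρ x : ℤ) * (c * (n - n') - n * (c - c')) =
        ((MulAction.period ρ x : ℤ) * c) * (n - n') -
          n * ((MulAction.period ρ x : ℤ) * c - (MulAction.period ρ x : ℤ) * c') := by ring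
      rw [this, ← hc, ← hc']; ring
    rw [← MulAction.zpow_smul_eq_iff_period_dvd] at hd
    have : (ρ ^ n) x = (ρ ^ n') ((ρ ^ (n - n')) x) := by
      rw [← Equiv.Perm.mul_apply, ← zpow_add]; congr 2; ring
    rw [this]
    congr 1

/-- fan chains at `x` starting from `y` -/
inductive Fan (σ : κ → V → V) (x y : V) : Finset κ → V → Prop
  | base : Fan σ x y ∅ y
  | step {B : Finset κ} {z : V} {β : κ} : Fan σ x y B z → β ∉ B → σ β z = z → σ β x ≠ x →
      Fan σ x y (insert β B) (σ β x)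

section FanLemmas

variable {μ : V → V → ℕ} {x y : V}

omit [Fintype V] [Fintype κ] in
theorem Fan.ne {σ : κ → V → V} (hxy : x ≠ y) {B : Finset κ} {z : V} (h : Fan σ x y B z) :
    x ≠ z := by
  cases h with
  | base => exact hxy
  | step _ _ _ h => exact h.symm

omit [Fintype V] [Fintype κ] in
theorem Fan.used {σ : κ → V → V} {B : Finset κ} {z : V} (h : Fan σ x y B z) :
    ∀ β ∈ B, σ β x ≠ x ∧ ∃ B', Fan σ x y B' (σ β x) := by
  induction h with
  | base => simp
  | step h1 h2 h3 h4 ih =>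
    intro γ hγ
    rcases mem_insert.mp hγ with rfl | hγ
    · exact ⟨h4, _, Fan.step h1 h2 h3 h4⟩
    · exact ih γ hγ

omit [Fintype V] in
theorem Fan.shift {σ : κ → V → V} (hσ : Inv σ) (hxy : x ≠ y)
    (hm : ∀ u v, u ≠ v → mult σ u v + dl x y u v = μ u v)
    {B : Finset κ} {z : V} (h : Fan σ x y B z) :
    ∃ σ' : κ → V → V, Inv σ' ∧ (∀ u v, u ≠ v → mult σ' u v + dl x z u v = μ u v) ∧
      ∀ γ, γ ∉ B → σ' γ = σ γ := by
  induction h with
  | base => exact ⟨σ, hσ, hm, fun _ _ => rfl⟩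
  | @step B z β h1 h2 h3 h4 ih =>
    obtain ⟨σ', a1, a2, a3⟩ := ih
    have e := a3 β h2
    have hz : σ' β z = z := by rw [e, h3]
    refine ⟨Function.update σ' β (lk (σ' β) x z), inv_link a1 (h1.ne hxy) hz, ?_, ?_⟩
    · intro u v huv
      rw [← e, mult_link a1 (h1.ne hxy) hz huv, a2 u v huv]
    · intro γ hγ
      rw [mem_insert, not_or] at hγ
      rw [Function.update_of_ne hγ.1, a3 γ hγ.2]

omit [Fintype V] in
theorem Fan.nomiss {σ : κ → V → V} (hσ : Inv σ) (hxy : x ≠ y)
    (hm : ∀ u v, u ≠ v → mult σ u v + dl x y u v = μ u v)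
    (hno : ¬ ∃ σ' : κ → V → V, Inv σ' ∧ ∀ u v, u ≠ v → mult σ' u v = μ u v)
    {B : Finset κ} {z : V} (h : Fan σ x y B z) {α : κ} (hα : σ α x = x) : σ α z ≠ z := by
  intro hz
  obtain ⟨σ', a1, a2, a3⟩ := h.shift hσ hxy hm
  have e := a3 α (fun hB => (h.used α hB).1 hα)
  have hz' : σ' α z = z := by rw [e, hz]
  refine hno ⟨Function.update σ' α (lk (σ' α) x z), inv_link a1 (h.ne hxy) hz', ?_⟩
  intro u v huv
  have := mult_link a1 (h.ne hxy) hz' huv
  rw [a2 u v huv, e, hα] at this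
  have h0 : dl x x u v = 0 := by
    unfold dl
    rw [if_neg]
    rintro (⟨rfl, rfl⟩ | ⟨rfl, rfl⟩) <;> exact huv rfl
  rw [e]
  omega

omit [Fintype V] in
theorem Fan.unique {σ : κ → V → V} (hσ : Inv σ) (hxy : x ≠ y)
    (hm : ∀ u v, u ≠ v → mult σ u v + dl x y u v = μ u v)
    (hno : ¬ ∃ σ' : κ → V → V, Inv σ' ∧ ∀ u v, u ≠ v → mult σ' u v = μ u v)
    {α : κ} (hα : σ α x = x) {β : κ}
    {B B' : Finset κ} {z z' : V} (h : Fan σ x y B z) (h' : Fan σ x y B' z')
    (hz : σ β z = z) (hz' : σ β z' = z') : z = z' := by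
  classical
  obtain ⟨K, hx, ka, kb, ku⟩ := kempe (σ α) (σ β) (hσ α) (hσ β) x hα
  have ka' : ∀ v, v ∉ K → σ α v ∉ K := fun v hv hh => hv (by simpa [hσ α v] using ka _ hh)
  have kb' : ∀ v, v ∉ K → σ β v ∉ K := fun v hv hh => hv (by simpa [hσ β v] using kb _ hh)
  let τ : κ → V → V := fun i v => if v ∈ K then σ i v else σ (Equiv.swap α β i) v
  have t1 : ∀ i v, v ∈ K → τ i v = σ i v := fun i v hv => if_pos hv
  have t2 : ∀ i v, v ∉ K → τ i v = σ (Equiv.swap α β i) v := fun i v hv => if_neg hv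
  have t3 : ∀ i v, i ≠ α → i ≠ β → τ i v = σ i v := by
    intro i v h1 h2
    by_cases hv : v ∈ K
    · exact t1 i v hv
    · rw [t2 i v hv, Equiv.swap_apply_of_ne_of_ne h1 h2]
  have hτ : Inv τ := by
    intro i v
    by_cases h1 : i = α
    · subst h1
      by_cases hv : v ∈ K
      · rw [t1 _ _ hv, t1 _ _ (ka _ hv), hσ]
      · rw [t2 _ _ hv, Equiv.swap_apply_left, t2 _ _ (kb' _ hv), Equiv.swap_apply_left, hσ]
    by_cases h2 : i = β
    · subst h2
      by_cases hv : v ∈ K
      · rw [t1 _ _ hv, t1 _ _ (kb _ hv), hσ]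
      · rw [t2 _ _ hv, Equiv.swap_apply_right, t2 _ _ (ka' _ hv), Equiv.swap_apply_right, hσ]
    rw [t3 _ _ h1 h2, t3 _ _ h1 h2, hσ]
  have hmτ : ∀ u v, u ≠ v → mult τ u v + dl x y u v = μ u v := by
    intro u v huv
    rw [← hm u v huv]
    congr 1
    unfold mult
    by_cases hu : u ∈ K
    · simp only [t1 _ _ hu]
    · simp only [t2 _ _ hu]
      exact card_bijective (Equiv.swap α β) (Equiv.bijective _) (by simp)
  have hατ : τ α x = x := by rw [t1 _ _ hx, hα]
  have key : ∀ {C : Finset κ} {w : V}, Fan τ x y C w → σ β w = w → w ∈ K := by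
    intro C w hw e
    by_contra hK
    exact hw.nomiss hτ hxy hmτ hno hατ (by rw [t2 _ _ hK, Equiv.swap_apply_left, e])
  have trans : ∀ {C : Finset κ} {w : V}, Fan σ x y C w → Fan τ x y C w := by
    intro C w hw
    induction hw with
    | base => exact Fan.base
    | @step C w γ h1 h2 h3 h4 ih =>
      rw [← t1 γ x hx]
      refine Fan.step ih h2 ?_ (by rw [t1 γ x hx]; exact h4)
      by_cases hγ : γ = β
      · subst hγ
        rw [t1 _ _ (key ih h3), h3]
      · rw [t3 _ _ (by rintro rfl; exact h4 hα) hγ, h3]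
  exact ku z z' (key (trans h) hz) (key (trans h') hz') hz hz'

/-- Vizing's fan inequality. -/
theorem fan_ineq {σ : κ → V → V} (hσ : Inv σ) (hxy : x ≠ y)
    (hm : ∀ u v, u ≠ v → mult σ u v + dl x y u v = μ u v)
    (hno : ¬ ∃ σ' : κ → V → V, Inv σ' ∧ ∀ u v, u ≠ v → mult σ' u v = μ u v)
    {α : κ} (hα : σ α x = x) :
    ∃ T : Finset V, y ∈ T ∧ x ∉ T ∧ ∑ z ∈ T, mult σ z z ≤ ∑ z ∈ T, mult σ x z := by
  classical
  let T : Finset V := univ.filter fun z => ∃ B, Fan σ x y B z
  have hT : ∀ z, z ∈ T ↔ ∃ B, Fan σ x y B z := by simp [T]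
  refine ⟨T, (hT y).mpr ⟨_, Fan.base⟩, fun h => ?_, ?_⟩
  · obtain ⟨B, hB⟩ := (hT x).mp h
    exact hB.ne hxy rfl
  · unfold mult
    rw [← card_biUnion, ← card_biUnion]
    · refine card_le_card fun β hβ => ?_
      simp only [mem_biUnion, mem_filter, mem_univ, true_and] at hβ ⊢
      obtain ⟨z, hz, e⟩ := hβ
      obtain ⟨B, hB⟩ := (hT z).mp hz
      refine ⟨σ β x, (hT _).mpr ?_, rfl⟩
      by_cases hb : β ∈ B
      · exact (hB.used β hb).2
      · exact ⟨_, Fan.step hB hb e (fun hx => hB.nomiss hσ hxy hm hno hx e)⟩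
    · intro z _ z' _ hne
      refine disjoint_left.mpr fun β h1 h2 => hne ?_
      simp only [mem_filter, mem_univ, true_and] at h1 h2
      rw [← h1, h2]
    · intro z hz z' hz' hne
      refine disjoint_left.mpr fun β h1 h2 => hne ?_
      simp only [mem_filter, mem_univ, true_and] at h1 h2
      obtain ⟨B, hB⟩ := (hT z).mp hz
      obtain ⟨B', hB'⟩ := (hT z').mp hz'
      exact hB.unique hσ hxy hm hno hα hB' h1 h2

end FanLemmas

end Pool.Agent.P.MP_d14d18_co
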