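import Pool.Agent.P.MP_d14d18_co.Star

/-!
Placing the colours that are pre-assigned at least twice, and the main extension theorem.
-/

set_option autoImplicit false
set_option linter.unusedSectionVars false

open Finset

namespace Pool.Agent.P.MP_d14d18_co

variable {V κ : Type} [Fintype V] [DecidableEq V] [Fintype κ] [DecidableEq κ]

/-- number of colours present at `v` -/
def cov (τ : κ → V → V) (v : V) : ℕ := (univ.filter fun i => τ i v ≠ v).card

theorem cov_add (τ : κ → V → V) (v : V) : mult τ v v + cov τ v = Fintype.card κ := by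
  unfold mult cov
  rw [card_filter_add_card_filter_not, card_univ]

theorem cov_update (σ : κ → V → V) (β : κ) (g : V → V) (v : V) :
    cov (Function.update σ β g) v + (if g v = v then 1 else 0) =
      cov σ v + (if σ β v = v then 1 else 0) := by
  have h1 := cov_add σ v
  have h2 := cov_add (Function.update σ β g) v
  have h3 := mult_update σ β g v v
  omega

theorem cov_eq {σ : κ → V → V} {ν : V → V → ℕ} (h0 : ∀ u, ν u u = 0)
    (hm : ∀ u v, u ≠ v → mult σ u v = ν u v) (u : V) : cov σ u = ∑ v, ν u v := by
  have := miss_add h0 hm u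
  have := cov_add σ u
  omega

theorem sum_filter_card_comm (H : Finset κ) (r : κ → V → Prop) [∀ i v, Decidable (r i v)] :
    ∑ v, (H.filter fun i => r i v).card = ∑ i ∈ H, (univ.filter fun v => r i v).card := by
  simp only [card_filter]
  exact sum_comm

theorem improve (p p' : V → ℕ) (x w : V) (hx : p' x + 1 = p x)
    (hv : ∀ v, v ≠ x → v ≠ w → p' v ≤ p v) (hxw : x ≠ w)
    (hw : p' w ≤ p w ∨ (p' w ≤ p w + 1 ∧ p w + 2 ≤ p x)) :
    ∑ v, p' v ≤ ∑ v, p v ∧ ∑ v, p' v ^ 2 < ∑ v, p v ^ 2 := by
  have hw' : w ∈ univ.erase x := by simp [hxw.symm]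
  have e : ∀ q : V → ℕ, ∑ v, q v = q x + (q w + ∑ v ∈ (univ.erase x).erase w, q v) := by
    intro q
    rw [Finset.add_sum_erase _ _ hw', Finset.add_sum_erase _ _ (mem_univ x)]
  have l1 : ∑ v ∈ (univ.erase x).erase w, p' v ≤ ∑ v ∈ (univ.erase x).erase w, p v :=
    sum_le_sum fun v h => hv v (ne_of_mem_erase (mem_of_mem_erase h)) (ne_of_mem_erase h)
  have l2 : ∑ v ∈ (univ.erase x).erase w, p' v ^ 2 ≤ ∑ v ∈ (univ.erase x).erase w, p v ^ 2 :=
    sum_le_sum fun v h => Nat.pow_le_pow_left
      (hv v (ne_of_mem_erase (mem_of_mem_erase h)) (ne_of_mem_erase h)) 2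
  rw [e p, e p', e (fun v => p v ^ 2), e (fun v => p' v ^ 2)]
  have : p' x ^ 2 + p' w ^ 2 < p x ^ 2 + p w ^ 2 := by
    rcases hw with h | ⟨h, h'⟩
    · have := Nat.pow_le_pow_left h 2
      nlinarith
    · have := Nat.pow_le_pow_left h 2
      nlinarith
  constructor
  · omega
  · omega

theorem heavy (d : ℕ) (hκ : d + 1 ≤ Fintype.card κ) (ν : V → V → ℕ)
    (hs : ∀ u v, ν u v = ν v u) (h0 : ∀ u, ν u u = 0) (h1 : ∀ u v, ν u v ≤ 1)
    (F : V → Finset κ) (hdeg : ∀ v, ∑ u, ν v u + (F v).card ≤ d) (hsum : ∑ v, (F v).card ≤ d)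
    (H : Finset κ) (hH : ∀ i, i ∈ H ↔ 2 ≤ (univ.filter fun v => i ∈ F v).card) :
    ∃ τ : κ → V → V, Inv τ ∧ (∀ i, i ∉ H → ∀ v, τ i v = v) ∧
      (∀ u v, u ≠ v → mult τ u v ≤ ν u v) ∧ (∀ v, ∀ i ∈ F v, τ i v = v) ∧
      ∀ v, ∑ u, ν v u + (F v \ H).card + H.card ≤ cov τ v + d + 9 := by
  classical
  set m : κ → ℕ := fun i => (univ.filter fun v => i ∈ F v).card with hmdef
  set S := ∑ i ∈ H, m i with hSdef
  have hS : ∑ v, (H.filter fun i => i ∈ F v).card = S := sum_filter_card_comm H _
  have hsplit : ∀ v, (F v \ H).card + (H.filter fun i => i ∈ F v).card = (F v).card := by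
    intro v
    rw [filter_mem_eq_inter, inter_comm, card_sdiff_add_card_inter]
  have hN : ∑ v, (F v \ H).card + S ≤ d := by
    rw [← hS, ← sum_add_distrib]
    simpa only [hsplit] using hsum
  have h2S : 2 * H.card ≤ S := by
    have := card_nsmul_le_sum H m 2 (fun i hi => (hH i).mp hi)
    simpa [mul_comm] using this
  have hdisj : ∀ u v i, i ∈ F u \ H → i ∈ F v \ H → u = v := by
    intro u v i hu hv
    rw [mem_sdiff] at hu hv
    by_contra hne
    refine hu.2 ((hH i).mpr ?_)
    have : ({u, v} : Finset V) ⊆ univ.filter fun w => i ∈ F w := by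
      intro w hw
      rcases mem_insert.mp hw with rfl | hw
      · simpa using hu.1
      · rw [mem_singleton.mp hw]; simpa using hv.1
    simpa [card_pair hne] using card_le_card this
  -- the initial colouring
  obtain ⟨K, hK1, -, hK2⟩ := exists_subsuperset_card_eq (n := d + 1)
    (subset_univ (H ∪ univ.biUnion fun v => F v \ H))
    (by
      have a1 := card_union_le H (univ.biUnion fun v => F v \ H)
      have a2 := card_biUnion_le (s := univ) (t := fun v => F v \ H)
      omega) (by simpa using hκ)
  have hHK : H ⊆ K := subset_union_left.trans hK1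
  have hFK : ∀ v, F v \ H ⊆ K := fun v =>
    ((subset_biUnion_of_mem (fun v => F v \ H) (mem_univ v)).trans subset_union_right).trans hK1
  obtain ⟨σ, hσ, hσK, hσm, hσF⟩ := star2 ν hs h0 h1 K (fun v => F v \ H) hFK hdisj
    (fun v => by have := hdeg v; have := hsplit v; omega) (by omega)
  let p : (κ → V → V) → V → ℕ := fun τ v =>
    (∑ u, ν v u + (F v \ H).card + H.card) - (cov τ v + d + 1)
  let Good : (κ → V → V) → Prop := fun τ => Inv τ ∧ (∀ i, i ∉ H → ∀ v, τ i v = v) ∧
      (∀ u v, u ≠ v → mult τ u v ≤ ν u v) ∧ (∀ v, ∀ i ∈ F v, τ i v = v) ∧ ∑ v, p τ v ≤ 2 * S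
  have hex : ∃ τ, Good τ := by
    let τ : κ → V → V := fun i v => if i ∈ H ∧ i ∉ F v ∧ i ∉ F (σ i v) then σ i v else v
    refine ⟨τ, ?_, ?_, ?_, ?_, ?_⟩
    · intro i v
      have := hσ i v
      simp only [τ]
      split_ifs <;> grind
    · intro i hi v
      simp [τ, hi]
    · intro u v huv
      rw [← hσm u v huv]
      refine card_le_card fun i hi => ?_
      simp only [mem_filter, mem_univ, true_and, τ] at hi ⊢
      split_ifs at hi
      · exact hi
      · exact absurd hi huv
    · intro v i hi
      simp [τ, hi]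
    · have b1 : ∀ v, p τ v ≤ (H.filter fun i => i ∈ F v).card +
          (H.filter fun i => i ∈ F (σ i v)).card := by
        intro v
        have c1 : (univ.filter fun i => σ i v ≠ v) ⊆ (univ.filter fun i => τ i v ≠ v) ∪
            (H.filter fun i => i ∈ F v) ∪ (H.filter fun i => i ∈ F (σ i v)) ∪
            (K \ (H ∪ (F v \ H))) := by
          intro i hi
          simp only [mem_filter, mem_univ, true_and, τ, mem_union, mem_sdiff] at hi ⊢
          have := hσK i
          have := hσF v i
          simp only [mem_sdiff] at this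
          split_ifs <;> grind
        have c2 := card_le_card c1
        have c3 := cov_eq h0 hσm v
        have c4 : (K \ (H ∪ (F v \ H))).card + (H.card + (F v \ H).card) = d + 1 := by
          rw [← card_union_of_disjoint disjoint_sdiff,
            card_sdiff_add_card_eq_card (union_subset hHK (hFK v)), hK2]
        have c5 := card_union_le ((univ.filter fun i => τ i v ≠ v) ∪
            (H.filter fun i => i ∈ F v) ∪ (H.filter fun i => i ∈ F (σ i v))) (K \ (H ∪ (F v \ H)))
        have c6 := card_union_le ((univ.filter fun i => τ i v ≠ v) ∪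
            (H.filter fun i => i ∈ F v)) (H.filter fun i => i ∈ F (σ i v))
        have c7 := card_union_le (univ.filter fun i => τ i v ≠ v) (H.filter fun i => i ∈ F v)
        simp only [p]
        unfold cov at c3 ⊢
        omega
      have b2 : ∑ v, (H.filter fun i => i ∈ F (σ i v)).card = S := by
        rw [sum_filter_card_comm H (fun i v => i ∈ F (σ i v))]
        refine sum_congr rfl fun i _ => ?_
        exact card_bijective (σ i) (Function.Involutive.bijective (hσ i)) (by simp)
      have b3 := sum_le_sum (s := univ) fun v _ => b1 v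
      rw [sum_add_distrib, b2, hS] at b3
      omega
  obtain ⟨τ, ⟨g1, g2, g3, g4, g5⟩, hmin⟩ := exists_min_image (univ.filter Good)
    (fun τ => ∑ v, p τ v ^ 2) (by obtain ⟨τ, h⟩ := hex; exact ⟨τ, by simpa using h⟩) |>.imp
    fun τ h => And.intro (mem_filter.mp h.1).2 h.2
  refine ⟨τ, g1, g2, g3, g4, fun x => ?_⟩
  by_contra hx
  push Not at hx
  -- two missing heavy colours
  let M : Finset κ := H.filter fun i => i ∉ F x ∧ τ i x = x
  have hM : 2 ≤ M.card := by
    have c1 : H ⊆ M ∪ (H.filter fun i => i ∈ F x) ∪ (univ.filter fun i => τ i x ≠ x) := by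
      intro i hi
      simp only [M, mem_filter, mem_univ, true_and, mem_union]
      tauto
    have c2 := card_le_card c1
    have c3 := card_union_le (M ∪ (H.filter fun i => i ∈ F x)) (univ.filter fun i => τ i x ≠ x)
    have c4 := card_union_le M (H.filter fun i => i ∈ F x)
    have c5 := hdeg x
    have c6 := hsplit x
    unfold cov at hx
    omega
  obtain ⟨β, hβ, hβm⟩ : ∃ β ∈ M, 2 * m β + H.card ≤ S + 2 := by
    obtain ⟨β, hβ, hmin'⟩ := exists_min_image M m (card_pos.mp (by omega))
    obtain ⟨γ, hγ, hne⟩ := exists_mem_ne (by omega : 1 < M.card) β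
    refine ⟨β, hβ, ?_⟩
    have hβH : β ∈ H := (mem_filter.mp hβ).1
    have hγH : γ ∈ H.erase β := mem_erase.mpr ⟨hne, (mem_filter.mp hγ).1⟩
    have e1 : S = m β + (m γ + ((H.erase β).erase γ).sum m) := by
      rw [Finset.add_sum_erase _ _ hγH, Finset.add_sum_erase _ _ hβH]
    have e2 := card_nsmul_le_sum ((H.erase β).erase γ) m 1 (fun i hi => by
      have := (hH i).mp (mem_of_mem_erase (mem_of_mem_erase hi))
      simp only [m]; omega)
    have e3 := card_erase_add_one hγH
    have e4 := card_erase_add_one hβH
    have e5 := hmin' γ hγ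
    simp only [smul_eq_mul, mul_one] at e2
    omega
  obtain ⟨hβH, hβF, hβx⟩ : β ∈ H ∧ β ∉ F x ∧ τ β x = x := by simpa [M] using hβ
  let N : Finset V := univ.filter fun w => ν x w = 1 ∧ mult τ x w = 0 ∧ β ∉ F w
  have hNcard : ∑ u, ν x u ≤ N.card + cov τ x + m β := by
    have c0 : ∑ u, ν x u = (univ.filter fun w => ν x w = 1).card := by
      rw [card_filter]
      refine sum_congr rfl fun w _ => ?_
      have := h1 x w
      split_ifs <;> omega
    have c1 : (univ.filter fun w => ν x w = 1) ⊆ N ∪
        ((univ.filter fun i => τ i x ≠ x).image fun i => τ i x) ∪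
        (univ.filter fun v => β ∈ F v) := by
      intro w hw
      simp only [N, mem_filter, mem_univ, true_and, mem_union, mem_image] at hw ⊢
      by_cases e1 : β ∈ F w
      · exact Or.inr e1
      by_cases e2 : mult τ x w = 0
      · exact Or.inl (Or.inl ⟨hw, e2, e1⟩)
      obtain ⟨i, hi⟩ := card_pos.mp (Nat.pos_of_ne_zero e2)
      have hi' : τ i x = w := (mem_filter.mp hi).2
      refine Or.inl (Or.inr ⟨i, ?_, hi'⟩)
      rw [hi']
      rintro rfl
      rw [h0] at hw
      omega
    have c2 := card_le_card c1
    have c3 := card_union_le (N ∪ ((univ.filter fun i => τ i x ≠ x).image fun i => τ i x))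
      (univ.filter fun v => β ∈ F v)
    have c4 := card_union_le N ((univ.filter fun i => τ i x ≠ x).image fun i => τ i x)
    have c5 := card_image_le (s := univ.filter fun i => τ i x ≠ x) (f := fun i => τ i x)
    unfold cov
    simp only [m]
    omega
  have hpx : 9 ≤ p τ x := by simp only [p]; omega
  have hbig : ∀ w ∈ N, 8 ≤ p τ (τ β w) := by
    intro w hw
    obtain ⟨w1, w2, w3⟩ : ν x w = 1 ∧ mult τ x w = 0 ∧ β ∉ F w := by simpa [N] using hw
    have hwx : w ≠ x := by rintro rfl; rw [h0] at w1; omega
    have hw'x : x ≠ τ β w := by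
      intro e
      have := g1 β w
      rw [← e, hβx] at this
      exact hwx this.symm
    by_contra hlt
    let τ' := Function.update τ β (lk (τ β) w x)
    have hc : ∀ v, cov τ' v + (if lk (τ β) w x v = v then 1 else 0) =
      cov τ v + (if τ β v = v then 1 else 0) := fun v => cov_update τ β _ v
    have k1 : cov τ' x = cov τ x + 1 := by
      have := hc x
      simpa [lk, hwx, hwx.symm, hβx] using this
    have k2 : ∀ v, v ≠ x → v ≠ τ β w → cov τ v ≤ cov τ' v := by
      intro v a1 a2
      have := hc v
      by_cases a3 : v = w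
      · subst a3
        simp only [lk, if_true, hwx.symm, if_false] at this
        omega
      · simp only [lk, a1, a2, a3, if_false] at this
        omega
    have k3 : cov τ (τ β w) ≤ cov τ' (τ β w) + 1 := by
      have := hc (τ β w)
      split_ifs at this <;> omega
    obtain ⟨i1, i2⟩ := improve (p τ) (p τ') x (τ β w)
      (by simp only [p] at hpx ⊢; omega)
      (fun v a1 a2 => by have := k2 v a1 a2; simp only [p]; omega) hw'x
      (by
        right
        simp only [p] at hpx hlt ⊢
        omega)
    have hG : Good τ' := by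
      refine ⟨inv_link g1 hwx hβx, ?_, ?_, ?_, i1.trans g5⟩
      · intro i hi v
        have : i ≠ β := by rintro rfl; exact hi hβH
        simp only [τ']
        rw [Function.update_of_ne this, g2 i hi]
      · intro u v huv
        have a1 := mult_link g1 hwx hβx huv
        have a2 := g3 u v huv
        have a3 : mult τ u v + dl w x u v ≤ ν u v := by
          unfold dl
          split_ifs with h
          · rcases h with ⟨rfl, rfl⟩ | ⟨rfl, rfl⟩
            · have : mult τ u v = 0 := by
                rw [← w2]
                unfold mult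
                congr 1
                ext i
                simp only [mem_filter, mem_univ, true_and]
                constructor
                · intro e; rw [← e, g1]
                · intro e; rw [← e, g1]
              rw [hs]; omega
            · omega
          · omega
        simp only [τ']
        omega
      · intro v i hi
        by_cases e : i = β
        · subst e
          have a1 : v ≠ w := by rintro rfl; exact w3 hi
          have a2 : v ≠ x := by rintro rfl; exact hβF hi
          simp [τ', lk, a1, a2, g4 v i hi]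
        · simp only [τ']
          rw [Function.update_of_ne e, g4 v i hi]
    have := hmin τ' (by simpa using hG)
    omega
  have f1 : N.card * 8 ≤ ∑ w ∈ N, p τ (τ β w) := by
    simpa using card_nsmul_le_sum N _ 8 hbig
  have f2 : ∑ w ∈ N, p τ (τ β w) ≤ ∑ w, p τ (τ β w) :=
    sum_le_sum_of_subset (subset_univ _)
  have f3 : ∑ w, p τ (τ β w) = ∑ w, p τ w :=
    Function.Bijective.sum_comp (Function.Involutive.bijective (g1 β)) (p τ)
  have f4 : (F x \ H).card ≤ ∑ v, (F v \ H).card :=
    single_le_sum (f := fun v => (F v \ H).card) (fun _ _ => Nat.zero_le _) (mem_univ x)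
  omega

/-- The extension theorem in forbidden-colour form. -/
theorem main (d : ℕ) (hκ : d + 10 ≤ Fintype.card κ) (ν : V → V → ℕ)
    (hs : ∀ u v, ν u v = ν v u) (h0 : ∀ u, ν u u = 0) (h1 : ∀ u v, ν u v ≤ 1)
    (F : V → Finset κ) (hdeg : ∀ v, ∑ u, ν v u + (F v).card ≤ d) (hsum : ∑ v, (F v).card ≤ d) :
    ∃ σ : κ → V → V, Inv σ ∧ (∀ u v, ν u v = 1 → ∃ i, σ i u = v) ∧
      ∀ v, ∀ i ∈ F v, σ i v = v := by
  classical
  let H : Finset κ := univ.filter fun i => 2 ≤ (univ.filter fun v => i ∈ F v).card
  have hH : ∀ i, i ∈ H ↔ 2 ≤ (univ.filter fun v => i ∈ F v).card := by simp [H]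
  obtain ⟨τ, g1, g2, g3, g4, g5⟩ := heavy d (by omega) ν hs h0 h1 F hdeg hsum H hH
  have hms : ∀ u v, mult τ u v = mult τ v u := by
    intro u v
    unfold mult
    congr 1
    ext i
    simp only [mem_filter, mem_univ, true_and]
    constructor
    · intro e; rw [← e, g1]
    · intro e; rw [← e, g1]
  let ν' : V → V → ℕ := fun u v => ν u v - mult τ u v
  let ν'' : V → V → ℕ := fun u v => if u = v then 0 else mult τ u v
  have hc : ∀ v, ∑ u, ν' v u + cov τ v = ∑ u, ν v u := by
    intro v
    rw [cov_eq (ν := ν'') (fun u => by simp [ν'']) (fun a b h => by simp [ν'', h]),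
      ← sum_add_distrib]
    refine sum_congr rfl fun u _ => ?_
    simp only [ν', ν'']
    split_ifs with h
    · subst h; simp [h0]
    · have := g3 v u h
      omega
  have hK : (univ \ H).card + H.card = Fintype.card κ := by
    rw [card_sdiff_add_card_eq_card (subset_univ _), card_univ]
  have hN : ∑ v, (F v \ H).card + H.card ≤ d := by
    have a1 : ∀ v, (F v \ H).card + (H.filter fun i => i ∈ F v).card = (F v).card := by
      intro v
      rw [filter_mem_eq_inter, inter_comm, card_sdiff_add_card_inter]
    have a2 := sum_filter_card_comm H (fun i v => i ∈ F v)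
    have a3 := card_nsmul_le_sum H (fun i => (univ.filter fun v => i ∈ F v).card) 1
      (fun i hi => by have := (hH i).mp hi; omega)
    have a4 : ∑ v, (F v \ H).card + ∑ v, (H.filter fun i => i ∈ F v).card ≤ d := by
      rw [← sum_add_distrib]
      simpa only [a1] using hsum
    simp only [smul_eq_mul, mul_one] at a3
    omega
  obtain ⟨σ, hσ, hσK, hσm, hσF⟩ := star2 ν' (fun u v => by simp only [ν']; rw [hs u v, hms])
    (fun u => by simp [ν', h0]) (fun u v => (Nat.sub_le _ _).trans (h1 u v)) (univ \ H)
    (fun v => F v \ H) (fun v => sdiff_subset_sdiff (subset_univ _) Subset.rfl)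
    (by
      intro u v i hu hv
      rw [mem_sdiff] at hu hv
      by_contra hne
      refine hu.2 ((hH i).mpr ?_)
      have : ({u, v} : Finset V) ⊆ univ.filter fun w => i ∈ F w := by
        intro w hw
        rcases mem_insert.mp hw with rfl | hw
        · simpa using hu.1
        · rw [mem_singleton.mp hw]; simpa using hv.1
      simpa [card_pair hne] using card_le_card this)
    (fun v => by have := hc v; have := g5 v; omega) (by omega)
  refine ⟨fun i => if i ∈ H then τ i else σ i, ?_, ?_, ?_⟩
  · intro i v
    by_cases h : i ∈ H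
    · simp only [h, if_true]; exact g1 i v
    · simp only [h, if_false]; exact hσ i v
  · intro u v huv
    have hne : u ≠ v := by rintro rfl; rw [h0] at huv; omega
    by_cases e : mult τ u v = 0
    · have : 0 < mult σ u v := by rw [hσm u v hne]; simp only [ν']; omega
      obtain ⟨i, hi⟩ := card_pos.mp this
      have hi' : σ i u = v := (mem_filter.mp hi).2
      refine ⟨i, ?_⟩
      have : i ∉ H := by
        intro h
        rw [hσK i (by simp [h])] at hi'
        exact hne hi'
      simp [this, hi']
    · obtain ⟨i, hi⟩ := card_pos.mp (Nat.pos_of_ne_zero e)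
      have hi' : τ i u = v := (mem_filter.mp hi).2
      refine ⟨i, ?_⟩
      have : i ∈ H := by
        by_contra h
        rw [g2 i h] at hi'
        exact hne hi'
      simp [this, hi']
  · intro v i hi
    by_cases h : i ∈ H
    · simp only [h, if_true]; exact g4 v i hi
    · simp only [h, if_false]; exact hσF v i (mem_sdiff.mpr ⟨hi, h⟩)

end Pool.Agent.P.MP_d14d18_co
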