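import Pool.Agent.P.MP_d14d18_co.Fan

/-!
Edge colouring of multigraphs that are simple away from one vertex, and extension of
pre-colourings with pairwise distinct colours.
-/

set_option autoImplicit false
set_option linter.unusedSectionVars false

open Finset

namespace Pool.Agent.P.MP_d14d18_co

variable {V κ : Type} [Fintype V] [DecidableEq V] [Fintype κ] [DecidableEq κ]

theorem dl_symm (a b u v : V) : dl a b u v = dl a b v u := by
  unfold dl
  split_ifs <;> grind

theorem miss_add {σ : κ → V → V} {ν : V → V → ℕ} (h0 : ∀ u, ν u u = 0)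
    (hm : ∀ u v, u ≠ v → mult σ u v = ν u v) (u : V) :
    mult σ u u + ∑ v, ν u v = Fintype.card κ := by
  rw [← sum_mult σ u, ← Finset.add_sum_erase _ _ (mem_univ u),
    ← Finset.add_sum_erase _ (fun v => mult σ u v) (mem_univ u), h0, zero_add]
  congr 1
  exact sum_congr rfl fun v hv => (hm u v (ne_of_mem_erase hv).symm).symm

theorem star (s : V) (n : ℕ) : ∀ (μ : V → V → ℕ), ∑ u, ∑ v, μ u v = n →
    (∀ u v, μ u v = μ v u) → (∀ u, μ u u = 0) → (∀ u v, u ≠ s → v ≠ s → μ u v ≤ 1) →
    (∀ u, ∑ v, μ u v < Fintype.card κ) →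
    ∃ σ : κ → V → V, Inv σ ∧ ∀ u v, u ≠ v → mult σ u v = μ u v := by
  induction n using Nat.strong_induction_on with
  | _ n ih =>
  intro μ hn hs h0 h1 hdeg
  -- removing one edge
  have rem : ∀ x y, 1 ≤ μ x y → ∃ (σ : κ → V → V) (ν : V → V → ℕ), Inv σ ∧
      (∀ u v, ν u v + dl x y u v = μ u v) ∧ (∀ u v, u ≠ v → mult σ u v = ν u v) := by
    intro x y hxy
    let ν : V → V → ℕ := fun u v => μ u v - dl x y u v
    have hν : ∀ u v, ν u v + dl x y u v = μ u v := by
      intro u v
      have : dl x y u v ≤ μ u v := by
        unfold dl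
        split_ifs with h
        · rcases h with ⟨rfl, rfl⟩ | ⟨rfl, rfl⟩
          · exact hxy
          · rw [hs]; exact hxy
        · exact Nat.zero_le _
      simp only [ν]; omega
    have hle : ∀ u v, ν u v ≤ μ u v := fun u v => Nat.sub_le _ _
    have hlt : ∑ u, ∑ v, ν u v < n := by
      rw [← hn]
      refine sum_lt_sum (fun u _ => sum_le_sum fun v _ => hle u v) ⟨x, mem_univ _, ?_⟩
      refine sum_lt_sum (fun v _ => hle x v) ⟨y, mem_univ _, ?_⟩
      have := hν x y
      have h2 : dl x y x y = 1 := by simp [dl]
      omega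
    obtain ⟨σ, a1, a2⟩ := ih _ hlt ν rfl
      (fun u v => by simp only [ν]; rw [hs u v, dl_symm])
      (fun u => by simp [ν, h0]) (fun u v hu hv => (hle u v).trans (h1 u v hu hv))
      (fun u => lt_of_le_of_lt (sum_le_sum fun v _ => hle u v) (hdeg u))
    exact ⟨σ, ν, a1, hν, a2⟩
  by_cases hA : ∃ u, u ≠ s ∧ ∃ v, v ≠ s ∧ 1 ≤ μ u v
  · -- an edge away from `s`
    obtain ⟨x, hxA, hmin⟩ := exists_min_image
      (univ.filter fun u => u ≠ s ∧ ∃ v, v ≠ s ∧ 1 ≤ μ u v) (fun u => μ s u)
      (by obtain ⟨u, hu⟩ := hA; exact ⟨u, by simpa using hu⟩)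
    simp only [mem_filter, mem_univ, true_and] at hxA hmin
    obtain ⟨hxs, y, hys, hy⟩ := hxA
    have hxy : x ≠ y := by rintro rfl; rw [h0] at hy; omega
    obtain ⟨σ, ν, hσ, hν, hm⟩ := rem x y hy
    have hle : ∀ u v, ν u v ≤ μ u v := fun u v => by have := hν u v; omega
    have hν0 : ∀ u, ν u u = 0 := fun u => by have := hle u u; rw [h0] at this; omega
    have hmiss := miss_add hν0 hm
    have hpos : ∀ u, 1 ≤ mult σ u u := by
      intro u
      have := hmiss u
      have := hdeg u
      have : ∑ v, ν u v ≤ ∑ v, μ u v := sum_le_sum fun v _ => hle u v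
      omega
    by_contra hno
    obtain ⟨α, hα⟩ : ∃ α, σ α x = x := by
      obtain ⟨α, h⟩ := card_pos.mp (hpos x)
      exact ⟨α, (mem_filter.mp h).2⟩
    obtain ⟨T, hyT, hxT, hT⟩ := fan_ineq (μ := μ) hσ hxy
      (fun u v huv => by rw [hm u v huv, hν]) hno hα
    have hxy0 : ν x y = 0 := by
      have := hν x y
      have h2 : dl x y x y = 1 := by simp [dl]
      have := h1 x y hxs hys
      omega
    have hyx0 : ν y x = 0 := by
      have := hν y x
      have h2 : dl x y y x = 1 := by simp [dl]
      have := h1 y x hys hxs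
      omega
    -- pointwise comparison on the fan
    have hpt : ∑ z ∈ T, (mult σ x z + (if z = y then mult σ y y else 0) +
        (if z = s then mult σ s s else 0)) ≤
        ∑ z ∈ T, (mult σ z z + (if z = s then μ s x else 0)) := by
      refine sum_le_sum fun z hz => ?_
      have hxz : x ≠ z := fun e => hxT (e ▸ hz)
      rw [hm x z hxz]
      by_cases e1 : z = y
      · subst e1
        simp [hxy0, hys]
      by_cases e2 : z = s
      · subst e2
        have := hle x z
        rw [hs] at this
        simp [e1]; omega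
      have := hle x z
      have := h1 x z hxs e2
      have := hpos z
      simp [e1, e2]; omega
    simp only [sum_add_distrib, sum_ite_eq', hyT, if_true] at hpt
    have hsT : s ∈ T := by
      by_contra hsT
      simp only [hsT, if_false] at hpt
      have := hpos y
      omega
    simp only [hsT, if_true] at hpt
    have hf : 1 ≤ μ s x := by have := hpos y; omega
    have hpt2 : ∑ v, (ν y v + (if v = x then μ s x else 0) + (if v = y then μ s y else 0)) ≤
        ∑ v, (ν s v + (if v = s then μ s y else 0)) := by
      refine sum_le_sum fun v _ => ?_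
      have hsv : ν s v = μ s v := by
        have := hν s v
        have h2 : dl x y s v = 0 := by
          unfold dl
          rw [if_neg]
          rintro (⟨h, -⟩ | ⟨h, -⟩)
          · exact hxs h.symm
          · exact hys h.symm
        omega
      rw [hsv]
      by_cases e1 : v = x
      · subst e1
        simp [hyx0, hxy, hxs]
      by_cases e2 : v = y
      · subst e2
        simp [hν0, e1, hys]
      by_cases e3 : v = s
      · subst e3
        have := hle y v
        rw [hs] at this
        simp [e1, e2]; omega
      have a1 := hle y v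
      have a2 := h1 y v hys e3
      simp only [e1, e2, e3, if_false, add_zero]
      by_cases e4 : 1 ≤ μ y v
      · have := hmin v ⟨e3, y, hys, by rw [hs]; exact e4⟩
        omega
      · omega
    simp only [sum_add_distrib, sum_ite_eq', mem_univ, if_true] at hpt2
    have b1 := hmiss y
    have b2 := hmiss s
    have b3 := hpos s
    omega
  · by_cases hB : ∃ y, 1 ≤ μ s y
    · obtain ⟨y, hy⟩ := hB
      have hsy : s ≠ y := by rintro rfl; rw [h0] at hy; omega
      obtain ⟨σ, ν, hσ, hν, hm⟩ := rem s y hy
      have hle : ∀ u v, ν u v ≤ μ u v := fun u v => by have := hν u v; omega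
      have hν0 : ∀ u, ν u u = 0 := fun u => by have := hle u u; rw [h0] at this; omega
      have hmiss := miss_add hν0 hm
      have hpos : 1 ≤ mult σ s s := by
        have := hmiss s
        have := hdeg s
        have : ∑ v, ν s v ≤ ∑ v, μ s v := sum_le_sum fun v _ => hle s v
        omega
      obtain ⟨α, hα⟩ : ∃ α, σ α s = s := by
        obtain ⟨α, h⟩ := card_pos.mp hpos
        exact ⟨α, (mem_filter.mp h).2⟩
      by_contra hno
      refine (Fan.base (σ := σ) (x := s) (y := y)).nomiss (μ := μ) hσ hsy
        (fun u v huv => by rw [hm u v huv, hν]) hno hα ?_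
      by_contra hne
      have h2 : 1 ≤ mult σ y (σ α y) := card_pos.mpr ⟨α, by simp⟩
      rw [hm _ _ (Ne.symm hne)] at h2
      refine hA ⟨y, hsy.symm, σ α y, fun e => hsy ?_, h2.trans (hle _ _)⟩
      rw [← hσ α y, e, hα]
    · refine ⟨fun _ v => v, fun _ _ => rfl, fun u v huv => ?_⟩
      have : μ u v = 0 := by
        by_contra hne
        by_cases e1 : u = s
        · exact hB ⟨v, by rw [← e1]; omega⟩
        by_cases e2 : v = s
        · exact hB ⟨u, by rw [← e2, hs]; omega⟩
        exact hA ⟨u, e1, v, e2, by omega⟩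
      simp [mult, huv, this]

theorem exists_perm_fiber {K W : Type} [Fintype K] [Fintype W] [DecidableEq W] (o g : K → W)
    (s : W) (h : ∀ w, w ≠ s → (univ.filter fun i => o i = w).card =
      (univ.filter fun i => g i = w).card) : ∃ π : K ≃ K, ∀ i, o (π i) = g i := by
  have h' : ∀ w, (univ.filter fun i => o i = w).card = (univ.filter fun i => g i = w).card := by
    intro w
    by_cases e : w = s
    · subst e
      have a1 := card_eq_sum_card_fiberwise (s := univ) (f := o) (t := univ)
        (fun _ _ => mem_univ _)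
      have a2 := card_eq_sum_card_fiberwise (s := univ) (f := g) (t := univ)
        (fun _ _ => mem_univ _)
      rw [← Finset.add_sum_erase _ _ (mem_univ w)] at a1 a2
      have a3 : ∑ x ∈ univ.erase w, (univ.filter fun i => o i = x).card =
          ∑ x ∈ univ.erase w, (univ.filter fun i => g i = x).card :=
        sum_congr rfl fun x hx => h x (ne_of_mem_erase hx)
      omega
    · exact h w e
  refine ⟨Equiv.ofFiberEquiv (f := g) (g := o) (fun w => Fintype.equivOfCardEq ?_), fun i => ?_⟩
  · rw [Fintype.card_subtype, Fintype.card_subtype, h']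
  · exact Equiv.ofFiberEquiv_map _ i

/-- Pre-assigned colours that are pairwise distinct cost only one extra colour. -/
theorem star2 (ν : V → V → ℕ) (hs : ∀ u v, ν u v = ν v u) (h0 : ∀ u, ν u u = 0)
    (h1 : ∀ u v, ν u v ≤ 1) (K : Finset κ) (F : V → Finset κ) (hFK : ∀ v, F v ⊆ K)
    (hdisj : ∀ u v i, i ∈ F u → i ∈ F v → u = v)
    (hdeg : ∀ v, ∑ u, ν v u + (F v).card < K.card) (hsum : ∑ v, (F v).card < K.card) :
    ∃ σ : κ → V → V, Inv σ ∧ (∀ i, i ∉ K → ∀ v, σ i v = v) ∧
      (∀ u v, u ≠ v → mult σ u v = ν u v) ∧ ∀ v, ∀ i ∈ F v, σ i v = v := by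
  classical
  let μ : Option V → Option V → ℕ := fun a b =>
    match a, b with
    | none, none => 0
    | none, some v => (F v).card
    | some u, none => (F u).card
    | some u, some v => ν u v
  obtain ⟨σ, hσ, hm⟩ := star (κ := K) (none : Option V) _ μ rfl
    (by
      rintro (_ | u) (_ | v)
      · rfl
      · rfl
      · rfl
      · exact hs u v)
    (by rintro (_ | u) <;> simp [μ, h0])
    (by
      rintro (_ | u) (_ | v) hu hv
      · exact absurd rfl hu
      · exact absurd rfl hu
      · exact absurd rfl hv
      · exact h1 u v)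
    (by
      rintro (_ | u)
      · simpa [μ, Fintype.sum_option] using hsum
      · have := hdeg u
        simp only [μ, Fintype.sum_option, Fintype.card_coe]
        omega)
  let g : K → Option V := fun i => if h : ∃ v, i.1 ∈ F v then some h.choose else none
  have hg : ∀ (i : K) v, g i = some v ↔ i.1 ∈ F v := by
    intro i v
    simp only [g]
    split_ifs with h
    · rw [Option.some_inj]
      exact ⟨fun e => e ▸ h.choose_spec, fun hv => hdisj _ _ _ h.choose_spec hv⟩
    · exact ⟨fun e => by simp at e, fun hv => absurd ⟨v, hv⟩ h⟩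
  obtain ⟨π, hπ⟩ := exists_perm_fiber (fun i => σ i none) g none (by
    rintro (_ | v) hv
    · exact absurd rfl hv
    have := hm none (some v) (by simp)
    unfold mult at this
    rw [this]
    simp only [μ, hg]
    refine (card_bij (fun i _ => i.1) ?_ ?_ ?_).symm
    · intro i hi; exact (mem_filter.mp hi).2
    · intro i _ j _ e; exact Subtype.ext e
    · intro i hi; exact ⟨⟨i, hFK v hi⟩, by simpa using hi, rfl⟩)
  let τ : κ → V → V := fun i v => if h : i ∈ K then (σ (π ⟨i, h⟩) (some v)).getD v else v
  have key : ∀ (j : K) (u v : V), u ≠ v → ((σ j (some u)).getD u = v ↔ σ j (some u) = some v) := by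
    intro j u v huv
    cases σ j (some u) <;> simp [huv]
  refine ⟨τ, ?_, ?_, ?_, ?_⟩
  · intro i v
    simp only [τ]
    split_ifs with h
    · cases e : σ (π ⟨i, h⟩) (some v) with
      | none => simp [e]
      | some w =>
        have := hσ (π ⟨i, h⟩) (some v)
        rw [e] at this
        simp [this]
    · rfl
  · intro i hi v
    simp [τ, hi]
  · intro u v huv
    have := hm (some u) (some v) (by simpa using huv)
    simp only [μ] at this
    rw [← this]
    unfold mult
    refine (card_bij (fun j _ => (π.symm j).1) ?_ ?_ ?_).symm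
    · intro j hj
      simp only [mem_filter, mem_univ, true_and] at hj ⊢
      simp [τ, hj]
    · intro i _ j _ e
      exact π.symm.injective (Subtype.ext e)
    · intro i hi
      simp only [mem_filter, mem_univ, true_and] at hi
      by_cases h : i ∈ K
      · simp only [τ, h, dif_pos] at hi
        exact ⟨π ⟨i, h⟩, by simpa using (key _ _ _ huv).mp hi, by simp⟩
      · simp only [τ, h, dif_neg, not_false_eq_true] at hi
        exact absurd hi huv
  · intro v i hi
    have h := hFK v hi
    have e := hπ ⟨i, h⟩
    rw [(hg ⟨i, h⟩ v).mpr hi] at e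
    have := hσ (π ⟨i, h⟩) none
    rw [e] at this
    simp [τ, h, this]

end Pool.Agent.P.MP_d14d18_co
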